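import Pool.Agent.Lib.MP_a349b4_lc.Defs

/-! Counting light walks, the two-sided interval inequality, and ranks by degree class. -/

set_option autoImplicit false

namespace Pool.Agent.Lib.MP_a349b4_lc

open Finset

/-- Points `0, …, t` are assigned to the intervals cut out by the partial sums of `a`. -/
theorem fibres (a : ℕ → ℕ) (p t : ℕ) (h : t < ∑ r ∈ range p, a r) :
    ∃ σ : ℕ → ℕ, (∀ x ≤ t, σ x < p ∧ ∑ r ∈ range (σ x), a r ≤ x) ∧
      (t + 1) ^ 2 ≤ p * ∑ x ∈ range (t + 1), a (σ x) := by
  classical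
  have mono : ∀ i j, i ≤ j → ∑ r ∈ range i, a r ≤ ∑ r ∈ range j, a r := fun i j hij =>
    sum_le_sum_of_subset (range_subset_range.2 hij)
  have ex : ∀ x ≤ t, ∃ s, s < p ∧ ∑ r ∈ range s, a r ≤ x ∧ x < ∑ r ∈ range s, a r + a s := by
    intro x hx
    have hp : 0 < p := by
      rcases Nat.eq_zero_or_pos p with rfl | hp
      · simp at h
      · exact hp
    have e : ∃ s, x < ∑ r ∈ range (s + 1), a r :=
      ⟨p - 1, by rw [Nat.sub_add_cancel hp]; omega⟩
    refine ⟨Nat.find e, ?_, ?_, ?_⟩
    · have : Nat.find e ≤ p - 1 := Nat.find_min' e (by rw [Nat.sub_add_cancel hp]; omega)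
      omega
    · rcases Nat.eq_zero_or_pos (Nat.find e) with h0 | h0
      · rw [h0]; simp
      · have := Nat.find_min e (m := Nat.find e - 1) (by omega)
        rw [Nat.sub_add_cancel h0] at this
        omega
    · have := Nat.find_spec e
      rwa [sum_range_succ] at this
  choose! σ hσ using ex
  refine ⟨σ, fun x hx => ⟨(hσ x hx).1, (hσ x hx).2.1⟩, ?_⟩
  have maps : ∀ x ∈ range (t + 1), σ x ∈ range p := fun x hx =>
    mem_range.2 (hσ x (by have := mem_range.1 hx; omega)).1
  let f : ℕ → ℕ := fun s => ((range (t + 1)).filter (fun x => σ x = s)).card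
  have h1 : t + 1 = ∑ s ∈ range p, f s := by
    have := card_eq_sum_card_fiberwise (f := σ) (s := range (t + 1)) (t := range p)
      (fun x hx => by exact_mod_cast maps x (by exact_mod_cast hx))
    simpa using this
  have h2 : ∀ s, f s ≤ a s := by
    intro s
    have : (range (t + 1)).filter (fun x => σ x = s) ⊆
        Ico (∑ r ∈ range s, a r) (∑ r ∈ range s, a r + a s) := by
      intro x hx
      obtain ⟨hx1, hx2⟩ := mem_filter.1 hx
      have := hσ x (by have := mem_range.1 hx1; omega)
      rw [hx2] at this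
      exact mem_Ico.2 ⟨this.2.1, this.2.2⟩
    have := card_le_card this
    simpa using this
  have h3 : ∑ x ∈ range (t + 1), a (σ x) = ∑ s ∈ range p, f s * a s := by
    rw [← sum_fiberwise_of_maps_to maps]
    refine sum_congr rfl fun s _ => ?_
    rw [sum_congr rfl (g := fun _ => a s) (fun x hx => by rw [(mem_filter.1 hx).2])]
    simp [f]
  have h4 : (∑ s ∈ range p, f s) ^ 2 ≤ (range p).card * ∑ s ∈ range p, f s ^ 2 :=
    sq_sum_le_card_mul_sum_sq
  rw [h3]
  calc (t + 1) ^ 2 = (∑ s ∈ range p, f s) ^ 2 := by rw [← h1]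
    _ ≤ p * ∑ s ∈ range p, f s ^ 2 := by simpa using h4
    _ ≤ p * ∑ s ∈ range p, f s * a s := by
      refine Nat.mul_le_mul_left _ (sum_le_sum fun s _ => ?_)
      rw [sq]
      exact Nat.mul_le_mul_left _ (h2 s)

/-- The two-sided interval inequality. -/
theorem two_sided (a b : ℕ → ℕ) (p q t L : ℕ) (ha : t < ∑ r ∈ range p, a r)
    (hb : t < ∑ r ∈ range q, b r)
    (h : ∀ s s', s < p → s' < q → ∑ r ∈ range s, a r + ∑ r ∈ range s', b r ≤ t → a s + b s' ≤ L) :
    (t + 1) * (p + q) ≤ L * (p * q) := by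
  obtain ⟨σ, hσ, h1⟩ := fibres a p t ha
  obtain ⟨τ, hτ, h2⟩ := fibres b q t hb
  have h3 : ∑ x ∈ range (t + 1), b (τ x) = ∑ x ∈ range (t + 1), b (τ (t - x)) := by
    rw [← sum_range_reflect]
    simp
  have h4 : ∑ x ∈ range (t + 1), a (σ x) + ∑ x ∈ range (t + 1), b (τ x) ≤ (t + 1) * L := by
    rw [h3, ← sum_add_distrib]
    calc ∑ x ∈ range (t + 1), (a (σ x) + b (τ (t - x))) ≤ ∑ _x ∈ range (t + 1), L := by
          refine sum_le_sum fun x hx => ?_
          have hx' : x ≤ t := by have := mem_range.1 hx; omega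
          have e1 := hσ x hx'
          have e2 := hτ (t - x) (by omega)
          exact h _ _ e1.1 e2.1 (by omega)
      _ = (t + 1) * L := by simp
  set A := ∑ x ∈ range (t + 1), a (σ x)
  set B := ∑ x ∈ range (t + 1), b (τ x)
  have h5 : (t + 1) * ((t + 1) * (p + q)) ≤ (t + 1) * (L * (p * q)) := by
    calc (t + 1) * ((t + 1) * (p + q)) = p * (t + 1) ^ 2 + q * (t + 1) ^ 2 := by ring
      _ ≤ p * (q * B) + q * (p * A) :=
        Nat.add_le_add (Nat.mul_le_mul_left _ h2) (Nat.mul_le_mul_left _ h1)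
      _ = p * q * (A + B) := by ring
      _ ≤ p * q * ((t + 1) * L) := Nat.mul_le_mul_left _ h4
      _ = (t + 1) * (L * (p * q)) := by ring
  exact Nat.le_of_mul_le_mul_left h5 (Nat.succ_pos t)

/-- On a walk of length `l ≤ k` with a vertex of class above `L` there is a pair of positions of
total class above `L` that is reached from the two ends within the budget. -/
theorem cheap_pair (α : ℕ → ℕ) (k l L i : ℕ) (hk : 0 < k) (hl : l ≤ k) (hi : i ≤ l)
    (hbig : L < α i) :
    ∃ s s', s + s' ≤ l ∧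
      ∑ r ∈ range s, α r + ∑ r ∈ range s', α (l - r) ≤ L * (k ^ 2 / 4) / k ∧
      L < α s + α (l - s') := by
  set t := L * (k ^ 2 / 4) / k with ht
  by_cases h1 : ∑ r ∈ range i, α r ≤ t
  · exact ⟨i, 0, by omega, by simpa using h1, by omega⟩
  by_cases h2 : ∑ r ∈ range (l - i), α (l - r) ≤ t
  · refine ⟨0, l - i, by omega, by simpa using h2, ?_⟩
    rw [Nat.sub_sub_self hi]
    omega
  have mono : ∀ j j', j ≤ j' → ∑ r ∈ range j, α (l - r) ≤ ∑ r ∈ range j', α (l - r) :=
    fun j j' hj => sum_le_sum_of_subset (range_subset_range.2 hj)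
  by_contra hcon
  have h3 := two_sided α (fun r => α (l - r)) i (k - i) t L (by omega)
    (by have := mono (l - i) (k - i) (by omega); omega) (by
      intro s s' hs hs' hb
      by_contra hc
      refine hcon ⟨s, s', ?_, hb, by omega⟩
      by_contra hc'
      have := mono (l - i) s' (by omega)
      omega)
  have h4 : i + (k - i) = k := by omega
  have h5 : i * (k - i) ≤ k ^ 2 / 4 := by
    rw [Nat.le_div_iff_mul_le (by norm_num)]
    obtain ⟨j, rfl⟩ : ∃ j, k = i + j := ⟨k - i, h4.symm⟩
    rw [Nat.add_sub_cancel_left]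
    nlinarith [sq_nonneg ((i : ℤ) - j)]
  rw [h4] at h3
  have h6 : (t + 1) * k ≤ L * (k ^ 2 / 4) := h3.trans (Nat.mul_le_mul_left _ h5)
  have h7 : t + 1 ≤ L * (k ^ 2 / 4) / k := (Nat.le_div_iff_mul_le hk).2 h6
  omega

open Classical in
/-- End points of the walks of `s` steps from `u` whose first `s` vertices have total class at
most `c`. -/
noncomputable def light {V : Type} [Fintype V] (R : V → V → Prop) (a : V → ℕ) (s c : ℕ) (u : V) :
    Finset V :=
  univ.filter fun x => ∃ p : ℕ → V, p 0 = u ∧ p s = x ∧ (∀ i < s, R (p i) (p (i + 1))) ∧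
    ∑ i ∈ range s, a (p i) ≤ c

theorem mem_light {V : Type} [Fintype V] {R : V → V → Prop} {a : V → ℕ} {s c : ℕ} {u x : V} :
    x ∈ light R a s c u ↔ ∃ p : ℕ → V, p 0 = u ∧ p s = x ∧ (∀ i < s, R (p i) (p (i + 1))) ∧
      ∑ i ∈ range s, a (p i) ≤ c := by
  simp [light]

theorem card_light {V : Type} [Fintype V] (R : V → V → Prop) (a : V → ℕ) (nb : V → Finset V)
    (hnb : ∀ x y, R x y → y ∈ nb x) (hc : ∀ x, (nb x).card ≤ 2 ^ a x) :
    ∀ (s c : ℕ) (u : V), (light R a s c u).card ≤ 2 ^ c := by
  classical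
  intro s
  induction s with
  | zero =>
    intro c u
    have : light R a 0 c u ⊆ {u} := by
      intro x hx
      obtain ⟨p, h0, h1, _⟩ := mem_light.1 hx
      rw [← h1, h0]
      exact mem_singleton_self _
    exact (card_le_card this).trans (by simpa using Nat.one_le_two_pow)
  | succ s ih =>
    intro c u
    by_cases hu : a u ≤ c
    · have : light R a (s + 1) c u ⊆ (nb u).biUnion fun y => light R a s (c - a u) y := by
        intro x hx
        obtain ⟨p, h0, h1, h2, h3⟩ := mem_light.1 hx
        rw [sum_range_succ', h0] at h3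
        refine mem_biUnion.2 ⟨p 1, hnb _ _ (by rw [← h0]; exact h2 0 (Nat.succ_pos s)), ?_⟩
        exact mem_light.2 ⟨fun i => p (i + 1), rfl, h1, fun i hi => h2 (i + 1) (by omega),
          Nat.le_sub_of_add_le h3⟩
      calc (light R a (s + 1) c u).card ≤ ∑ y ∈ nb u, (light R a s (c - a u) y).card :=
            (card_le_card this).trans card_biUnion_le
        _ ≤ ∑ _y ∈ nb u, 2 ^ (c - a u) := sum_le_sum fun y _ => ih _ y
        _ = (nb u).card * 2 ^ (c - a u) := by simp
        _ ≤ 2 ^ a u * 2 ^ (c - a u) := Nat.mul_le_mul_right _ (hc u)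
        _ = 2 ^ c := by rw [← pow_add]; exact congrArg _ (by omega)
    · have : light R a (s + 1) c u = ∅ := by
        refine eq_empty_of_forall_notMem fun x hx => ?_
        obtain ⟨p, h0, _, _, h3⟩ := mem_light.1 hx
        rw [sum_range_succ', h0] at h3
        omega
      rw [this]
      simp

/-- An injective rank under which every upper level set of `a` is an initial segment. -/
theorem exists_rank {n : ℕ} (a : Fin n → ℕ) :
    ∃ rk : Fin n → ℕ, Function.Injective rk ∧
      ∀ θ y, θ ≤ a y → rk y < (univ.filter fun z => θ ≤ a z).card := by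
  classical
  let key : Fin n → ℕᵒᵈ ×ₗ Fin n := fun z => toLex (OrderDual.toDual (a z), z)
  have kinj : Function.Injective key := fun x y h => congrArg (fun k => (ofLex k).2) h
  let rk : Fin n → ℕ := fun y => (univ.filter fun z => key z < key y).card
  have smono : ∀ x y, key x < key y → rk x < rk y := by
    intro x y h
    refine card_lt_card ⟨fun z hz => ?_, fun hs => ?_⟩
    · exact mem_filter.2 ⟨mem_univ _, (mem_filter.1 hz).2.trans h⟩
    · exact lt_irrefl _ (mem_filter.1 (hs (mem_filter.2 ⟨mem_univ x, h⟩))).2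
  refine ⟨rk, fun x y h => ?_, fun θ y hy => ?_⟩
  · rcases lt_trichotomy (key x) (key y) with h1 | h1 | h1
    · exact absurd h (smono _ _ h1).ne
    · exact kinj h1
    · exact absurd h (smono _ _ h1).ne'
  · refine card_lt_card ⟨fun z hz => ?_, fun hs => ?_⟩
    · have h1 := (mem_filter.1 hz).2
      refine mem_filter.2 ⟨mem_univ _, hy.trans ?_⟩
      rcases Prod.Lex.toLex_lt_toLex.1 h1 with h2 | h2
      · exact le_of_lt h2
      · exact le_of_eq (OrderDual.toDual.injective h2.1).symm
    · exact lt_irrefl _ (mem_filter.1 (hs (mem_filter.2 ⟨mem_univ y, hy⟩))).2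

/-- Pairs of total class above `L` are few. -/
theorem card_pairs {n : ℕ} (a : Fin n → ℕ) (L : ℕ) :
    (∑ x, (univ.filter fun z => L + 1 - a x ≤ a z).card) * 2 ^ L ≤ (∑ x, 2 ^ a x) ^ 2 := by
  rw [sq, sum_mul_sum, sum_mul]
  refine sum_le_sum fun x _ => ?_
  calc (univ.filter fun z => L + 1 - a x ≤ a z).card * 2 ^ L
      = ∑ _z ∈ univ.filter (fun z => L + 1 - a x ≤ a z), 2 ^ L := by simp
    _ ≤ ∑ z ∈ univ.filter (fun z => L + 1 - a x ≤ a z), 2 ^ a x * 2 ^ a z := by
      refine sum_le_sum fun z hz => ?_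
      rw [← pow_add]
      have := (mem_filter.1 hz).2
      exact Nat.pow_le_pow_right (by norm_num) (by omega)
    _ ≤ ∑ z, 2 ^ a x * 2 ^ a z := sum_le_sum_of_subset (filter_subset _ _)

theorem two_pow_clog_le (d : ℕ) : 2 ^ Nat.clog 2 d ≤ 2 * d + 1 := by
  rcases Nat.lt_or_ge 1 d with h | h
  · have h1 := Nat.pow_pred_clog_lt_self (b := 2) (by norm_num) h
    have h2 : 0 < Nat.clog 2 d := Nat.clog_pos (by norm_num) h
    obtain ⟨e, he⟩ : ∃ e, Nat.clog 2 d = e + 1 := ⟨Nat.clog 2 d - 1, by omega⟩
    rw [he] at h1 ⊢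
    simp only [Nat.pred_succ] at h1
    rw [pow_succ]
    omega
  · rw [Nat.clog_of_right_le_one h]
    omega

/-- Degree classes of a digraph. -/
theorem exists_class {n : ℕ} (E : Finset (Fin n × Fin n)) :
    ∃ a : Fin n → ℕ, (∀ x, (univ.filter fun y => (x, y) ∈ E).card ≤ 2 ^ a x) ∧
      (∀ x, (univ.filter fun y => (y, x) ∈ E).card ≤ 2 ^ a x) ∧
      ∑ x, 2 ^ a x ≤ 4 * E.card + n := by
  classical
  let o : Fin n → ℕ := fun x => (univ.filter fun y => (x, y) ∈ E).card
  let i : Fin n → ℕ := fun x => (univ.filter fun y => (y, x) ∈ E).card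
  have ho : ∑ x, o x = E.card := by
    rw [card_eq_sum_card_fiberwise (f := Prod.fst) (s := E) (t := univ) (fun _ _ => by simp)]
    refine sum_congr rfl fun x _ => ?_
    refine card_bij (fun y _ => (x, y)) (fun y hy => by simpa using hy)
      (fun y _ z _ h => (Prod.ext_iff.1 h).2) ?_
    rintro ⟨x', y⟩ h
    obtain ⟨h1, h2⟩ := mem_filter.1 h
    simp only at h2
    subst h2
    exact ⟨y, by simpa using h1, rfl⟩
  have hi : ∑ x, i x = E.card := by
    rw [card_eq_sum_card_fiberwise (f := Prod.snd) (s := E) (t := univ) (fun _ _ => by simp)]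
    refine sum_congr rfl fun x _ => ?_
    refine card_bij (fun y _ => (y, x)) (fun y hy => by simpa using hy)
      (fun y _ z _ h => (Prod.ext_iff.1 h).1) ?_
    rintro ⟨y, x'⟩ h
    obtain ⟨h1, h2⟩ := mem_filter.1 h
    simp only at h2
    subst h2
    exact ⟨y, by simpa using h1, rfl⟩
  refine ⟨fun x => Nat.clog 2 (o x + i x), fun x => ?_, fun x => ?_, ?_⟩
  · exact (Nat.le_add_right (o x) (i x)).trans (Nat.le_pow_clog (by norm_num) _)
  · exact (Nat.le_add_left (i x) (o x)).trans (Nat.le_pow_clog (by norm_num) _)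
  · calc ∑ x, 2 ^ Nat.clog 2 (o x + i x) ≤ ∑ x, (2 * (o x + i x) + 1) :=
          sum_le_sum fun x _ => two_pow_clog_le _
      _ = 4 * E.card + n := by
        rw [sum_add_distrib, ← mul_sum, sum_add_distrib, ho, hi]
        simp
        ring

/-- Gluing a forward walk, a middle walk and a backward walk. -/
theorem glue {n : ℕ} (E : Finset (Fin n × Fin n)) {s l s' : ℕ} (p m q : ℕ → Fin n)
    (hp : ∀ i < s, (p i, p (i + 1)) ∈ E) (hm : ∀ i < l, (m i, m (i + 1)) ∈ E)
    (hq : ∀ i < s', (q (i + 1), q i) ∈ E) (e1 : m 0 = p s) (e2 : m l = q s') {k : ℕ}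
    (hk : s + l + s' ≤ k) : Reach E k (p 0) (q 0) := by
  refine ⟨s + l + s', hk,
    fun i => if i ≤ s then p i else if i ≤ s + l then m (i - s) else q (s + l + s' - i), by simp, ?_, ?_⟩
  · simp only
    split_ifs with h1 h2
    · have a1 : l = 0 := by omega
      have a2 : s' = 0 := by omega
      subst a1 a2
      simp only [add_zero]
      rw [← e1, e2]
    · have a2 : s' = 0 := by omega
      subst a2
      rw [← e2]
      exact congrArg m (by omega)
    · simp
  · intro i hi
    have A : ∀ j, s ≤ j → j ≤ s + l →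
        (if j ≤ s then p j else if j ≤ s + l then m (j - s) else q (s + l + s' - j)) = m (j - s) := by
      intro j h1 h2
      by_cases h3 : j ≤ s
      · have : j = s := by omega
        subst this
        simp [e1]
      · rw [if_neg h3, if_pos h2]
    have B : ∀ j, s + l ≤ j →
        (if j ≤ s then p j else if j ≤ s + l then m (j - s) else q (s + l + s' - j)) =
          q (s + l + s' - j) := by
      intro j h1
      by_cases h3 : j ≤ s + l
      · rw [A j (by omega) h3]
        have : j = s + l := by omega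
        subst this
        simp [e2]
      · rw [if_neg (by omega), if_neg h3]
    simp only
    by_cases h1 : i < s
    · rw [if_pos h1.le, if_pos (by omega : i + 1 ≤ s)]
      exact hp i h1
    by_cases h2 : i < s + l
    · rw [A i (by omega) (by omega), A (i + 1) (by omega) (by omega)]
      have : i + 1 - s = i - s + 1 := by omega
      rw [this]
      exact hm _ (by omega)
    · rw [B i (by omega), B (i + 1) (by omega)]
      have : s + l + s' - i = s + l + s' - (i + 1) + 1 := by omega
      rw [this]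
      exact hq _ (by omega)

end Pool.Agent.Lib.MP_a349b4_lc
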