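import Mathlib

/-!
A word RAM with a read-only memory image and five instructions, bounded-length reachability, and
what it means for a memory image to answer all reachability queries within a time bound.
-/

set_option autoImplicit false

namespace Pool.Agent.Lib.MP_a349b4_lc

/-- Instructions; the numbers `i`, `j`, `l` name registers, `p` is a line of the program. -/
inductive Instr : Type
  /-- register `i` gets the constant `c` modulo `2 ^ w` -/
  | const (i c : ℕ) : Instr
  /-- register `i` gets the sum of registers `j` and `l` modulo `2 ^ w` -/
  | add (i j l : ℕ) : Instr
  /-- register `i` gets the memory word whose address is in register `j` -/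
  | load (i j : ℕ) : Instr
  /-- go to line `p` if registers `i` and `j` are equal -/
  | jeq (i j p : ℕ) : Instr
  /-- stop with answer `b` -/
  | halt (b : Bool) : Instr

/-- `run P w D t pc r` is `some b` when the program `P`, with word size `w` and memory image `D`
(addresses past its end hold `0`), started at line `pc` with registers `r`, stops with answer `b`
after at most `t` instructions; otherwise it is `none`. -/
def run (P : List Instr) (w : ℕ) (D : List ℕ) : ℕ → ℕ → (ℕ → ℕ) → Option Bool
  | 0, _, _ => none
  | t + 1, pc, r =>
    match P[pc]? with
    | some (Instr.const i c) => run P w D t (pc + 1) (Function.update r i (c % 2 ^ w))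
    | some (Instr.add i j l) => run P w D t (pc + 1) (Function.update r i ((r j + r l) % 2 ^ w))
    | some (Instr.load i j) => run P w D t (pc + 1) (Function.update r i (D.getD (r j) 0))
    | some (Instr.jeq i j p) => if r i = r j then run P w D t p r else run P w D t (pc + 1) r
    | some (Instr.halt b) => some b
    | none => none

/-- There is a directed walk from `u` to `v` with at most `k` edges, all in `E`. -/
def Reach {n : ℕ} (E : Finset (Fin n × Fin n)) (k : ℕ) (u v : Fin n) : Prop :=
  ∃ l ≤ k, ∃ p : ℕ → Fin n, p 0 = u ∧ p l = v ∧ ∀ i < l, (p i, p (i + 1)) ∈ E

/-- The memory image `D` consists of `w`-bit words, and for every query `(u, v)`, given in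
registers `0` and `1` (all other registers `0`), the program `P` stops after at most `T`
instructions and answers `true` exactly when `v` is reachable from `u` with at most `k` edges. -/
def Answers {n : ℕ} (P : List Instr) (w k : ℕ) (E : Finset (Fin n × Fin n)) (D : List ℕ)
    (T : ℕ) : Prop :=
  (∀ x ∈ D, x < 2 ^ w) ∧ ∀ u v : Fin n, ∃ b : Bool,
    run P w D T 0 (fun i => if i = 0 then (u : ℕ) else if i = 1 then (v : ℕ) else 0) = some b ∧
      (b = true ↔ Reach E k u v)

end Pool.Agent.Lib.MP_a349b4_lc
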