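import Pool.Agent.Lib.MP_a349b4_lc.Prog

/-! Laying out arrays in memory, and the memory image of an abstract lookup scheme. -/

set_option autoImplicit false

namespace Pool.Agent.Lib.MP_a349b4_lc

open Finset

theorem layout_base {ι : Type} [Fintype ι] (len : ι → ℕ) (o : ℕ) :
    ∃ base : ι → ℕ, (∀ i, o ≤ base i) ∧ (∀ i, base i + len i ≤ o + ∑ j, len j) ∧
      ∀ i j a b, a < len i → b < len j → base i + a = base j + b → i = j := by
  classical
  let e : ι → ℕ := fun i => (Fintype.equivFin ι i : ℕ)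
  have he : Function.Injective e := fun i j h => (Fintype.equivFin ι).injective (Fin.ext h)
  have key : ∀ i (s : Finset ι), i ∈ s → (∀ j, e j < e i → j ∈ s) →
      ∑ j ∈ univ.filter (fun j => e j < e i), len j + len i ≤ ∑ j ∈ s, len j := by
    intro i s hi hs
    have h1 : i ∉ univ.filter (fun j => e j < e i) := by simp
    rw [add_comm, ← sum_insert h1]
    refine sum_le_sum_of_subset ?_
    intro j hj
    rcases mem_insert.1 hj with rfl | hj
    · exact hi
    · exact hs j (mem_filter.1 hj).2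
  refine ⟨fun i => o + ∑ j ∈ univ.filter (fun j => e j < e i), len j, fun i => Nat.le_add_right _ _,
    fun i => ?_, ?_⟩
  · have := key i univ (mem_univ _) (fun _ _ => mem_univ _)
    simp only
    omega
  · intro i j a b ha hb h
    rcases lt_trichotomy (e i) (e j) with hl | hl | hl
    · have := key i (univ.filter (fun x => e x < e j)) (by simpa using hl)
        (fun x hx => by simpa using hx.trans hl)
      simp only at h
      omega
    · exact he hl
    · have := key j (univ.filter (fun x => e x < e i)) (by simpa using hl)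
        (fun x hx => by simpa using hx.trans hl)
      simp only at h
      omega

theorem fill {ι : Type} (len base : ι → ℕ)
    (inj : ∀ i j a b, a < len i → b < len j → base i + a = base j + b → i = j)
    (cont : ι → ℕ → ℕ) :
    ∃ M : ℕ → ℕ, (∀ i a, a < len i → M (base i + a) = cont i a) ∧
      ∀ z, M z = 0 ∨ ∃ i a, a < len i ∧ z = base i + a ∧ M z = cont i a := by
  classical
  let M : ℕ → ℕ := fun z =>
    if h : ∃ p : ι × ℕ, p.2 < len p.1 ∧ z = base p.1 + p.2 then cont h.choose.1 h.choose.2 else 0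
  refine ⟨M, ?_, ?_⟩
  · intro i a ha
    have h : ∃ p : ι × ℕ, p.2 < len p.1 ∧ base i + a = base p.1 + p.2 := ⟨(i, a), ha, rfl⟩
    have h1 := h.choose_spec
    have h2 : i = h.choose.1 := inj _ _ _ _ ha h1.1 h1.2
    have h3 : a = h.choose.2 := by
      have := h1.2
      rw [← h2] at this
      omega
    simp only [M, dif_pos h]
    rw [← h2, ← h3]
  · intro z
    by_cases h : ∃ p : ι × ℕ, p.2 < len p.1 ∧ z = base p.1 + p.2
    · right
      exact ⟨h.choose.1, h.choose.2, h.choose_spec.1, h.choose_spec.2, by simp only [M, dif_pos h]⟩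
    · left
      simp only [M, dif_neg h]

theorem getD_map_range (M : ℕ → ℕ) (S : ℕ) (h : ∀ z, S ≤ z → M z = 0) (z : ℕ) :
    ((List.range S).map M).getD z 0 = M z := by
  by_cases hz : z < S
  · simp [List.getD_eq_getElem?_getD, hz]
  · rw [h z (by omega)]
    simp [List.getD_eq_getElem?_getD, hz]

/-- The memory image of a lookup scheme: rows `ρ` of bits, an array `row u` of rows for each
source, and a list of pairs (position in the array, column) for each target. -/
theorem scheme {n : ℕ} {ρ G J : Type} [Fintype ρ] [Fintype G] [Fintype J]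
    (len : ρ → ℕ) (bit : ρ → ℕ → Prop) (hbit : ∀ r y, bit r y → y < len r)
    (row : Fin n → G → ρ) (g : Fin n → J → G) (y : Fin n → J → ℕ) (hy : ∀ v j, y v j ≤ n)
    (w S : ℕ)
    (hS : S = 2 * n + (n * (Fintype.card G + 1) + n * (2 * Fintype.card J + 1)) +
      ∑ r, (len r + 1)) (hw : S + n < 2 ^ w) :
    ∃ D : List ℕ, D.length = S ∧ (∀ x ∈ D, x < 2 ^ w) ∧ ∀ u v : Fin n, ∃ b : Bool,
      run prog w D (11 * Fintype.card J + 9) 0
        (fun i => if i = 0 then (u : ℕ) else if i = 1 then (v : ℕ) else 0) = some b ∧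
      (b = true ↔ ∃ j, bit (row u (g v j)) (y v j)) := by
  classical
  set N := Fintype.card J with hN
  set U := Fintype.card G with hU
  let len1 : Fin n ⊕ Fin n → ℕ := Sum.elim (fun _ => U + 1) (fun _ => 2 * N + 1)
  have hsum : ∑ i, len1 i = n * (U + 1) + n * (2 * N + 1) := by
    simp [len1, Fintype.sum_sum_type]
  obtain ⟨b1, b1lo, b1hi, b1inj⟩ := layout_base len1 (2 * n)
  rw [hsum] at b1hi
  set o := 2 * n + (n * (U + 1) + n * (2 * N + 1)) with ho
  obtain ⟨b2, b2lo, b2hi, b2inj⟩ := layout_base (fun r => len r + 1) o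
  rw [← hS] at b2hi
  let eG := Fintype.equivFin G
  let eJ := Fintype.equivFin J
  let c1 : Fin n ⊕ Fin n → ℕ → ℕ := Sum.elim
    (fun u a => if h : a - 1 < U then b2 (row u (eG.symm ⟨a - 1, h⟩)) else 0)
    (fun v a => if h : a / 2 < N then
      (if a % 2 = 0 then (eG (g v (eJ.symm ⟨a / 2, h⟩)) : ℕ) + 1 else y v (eJ.symm ⟨a / 2, h⟩))
      else 0)
  obtain ⟨M1, M1a, M1b⟩ := fill len1 b1 b1inj c1
  obtain ⟨M2, M2a, M2b⟩ := fill (fun r => len r + 1) b2 b2inj
    (fun r a => if bit r a then b2 r else 0)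
  let M : ℕ → ℕ := fun z =>
    if h : z / 2 < n then (if z % 2 = 0 then b1 (Sum.inl ⟨z / 2, h⟩) else b1 (Sum.inr ⟨z / 2, h⟩))
    else if z < o then M1 z else M2 z
  have hoS : o ≤ S := by rw [hS]; exact Nat.le_add_right _ _
  have Mhi : ∀ z, o ≤ z → M z = M2 z := by
    intro z hz
    have h1 : ¬ z / 2 < n := by omega
    have h2 : ¬ z < o := by omega
    simp only [M, dif_neg h1, if_neg h2]
  have Mmid : ∀ i a, a < len1 i → M (b1 i + a) = c1 i a := by
    intro i a ha
    have h0 := b1lo i
    have h0' := b1hi i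
    have h1 : ¬ (b1 i + a) / 2 < n := by omega
    have h2 : b1 i + a < o := by omega
    simp only [M, dif_neg h1, if_pos h2]
    exact M1a i a ha
  have Mz : ∀ z, S ≤ z → M z = 0 := by
    intro z hz
    rw [Mhi z (by omega)]
    rcases M2b z with h | ⟨r, a, ha, h1, _⟩
    · exact h
    · have := b2hi r
      omega
  have b2S : ∀ r, b2 r < S := fun r => by
    have := b2hi r
    omega
  have b1S : ∀ i, b1 i + len1 i ≤ S := fun i => (b1hi i).trans hoS
  have c1S : ∀ i a, c1 i a ≤ S + n := by
    intro i a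
    cases i with
    | inl u =>
      simp only [c1, Sum.elim_inl]
      split_ifs with h
      · exact (b2S _).le.trans (Nat.le_add_right _ _)
      · exact Nat.zero_le _
    | inr v =>
      simp only [c1, Sum.elim_inr]
      split_ifs with h h'
      · have h1 := (eG (g v (eJ.symm ⟨a / 2, h⟩))).2
        have h2 := b1S (Sum.inl v)
        simp only [len1, Sum.elim_inl] at h2
        omega
      · exact (hy _ _).trans (Nat.le_add_left _ _)
      · exact Nat.zero_le _
  have Mle : ∀ z, M z ≤ S + n := by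
    intro z
    simp only [M]
    split_ifs with h h' h''
    · have := b1S (Sum.inl ⟨z / 2, h⟩); omega
    · have := b1S (Sum.inr ⟨z / 2, h⟩); omega
    · rcases M1b z with h | ⟨i, a, _, _, h⟩
      · omega
      · rw [h]; exact c1S i a
    · rcases M2b z with h | ⟨r, a, _, _, h⟩
      · omega
      · rw [h]
        split_ifs
        · have := b2S r; omega
        · omega
  have hD := getD_map_range M S Mz
  refine ⟨(List.range S).map M, by simp, ?_, ?_⟩
  · intro x hx
    obtain ⟨z, _, rfl⟩ := List.mem_map.1 hx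
    exact (Mle z).trans_lt hw
  intro u v
  have hu := u.2
  have hv := v.2
  have hru : M (2 * u) = b1 (Sum.inl u) := by
    have h1 : 2 * (u : ℕ) / 2 < n := by omega
    have h2 : 2 * (u : ℕ) % 2 = 0 := by omega
    have h3 : (⟨2 * (u : ℕ) / 2, h1⟩ : Fin n) = u := Fin.ext (by simp)
    simp only [M, dif_pos h1, if_pos h2, h3]
  have hq : M (2 * v + 1) = b1 (Sum.inr v) := by
    have h1 : (2 * (v : ℕ) + 1) / 2 < n := by omega
    have h2 : ¬ (2 * (v : ℕ) + 1) % 2 = 0 := by omega
    have h3 : (⟨(2 * (v : ℕ) + 1) / 2, h1⟩ : Fin n) = v := Fin.ext (by simp only; omega)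
    simp only [M, dif_pos h1, if_neg h2, h3]
  have hvS := b1S (Sum.inr v)
  have huS := b1S (Sum.inl u)
  simp only [len1, Sum.elim_inl, Sum.elim_inr] at hvS huS
  have hz : M (b1 (Sum.inr v) + 2 * N) = 0 := by
    rw [Mmid _ _ (by simp [len1])]
    have h1 : ¬ 2 * N / 2 < N := by omega
    simp only [c1, Sum.elim_inr, dif_neg h1]
  have hg : ∀ j (h : j < N), M (b1 (Sum.inr v) + 2 * j) = (eG (g v (eJ.symm ⟨j, h⟩)) : ℕ) + 1 := by
    intro j h
    rw [Mmid _ _ (by simp only [len1, Sum.elim_inr]; omega)]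
    have h1 : 2 * j / 2 < N := by omega
    have h2 : 2 * j % 2 = 0 := by omega
    have h3 : (⟨2 * j / 2, h1⟩ : Fin N) = ⟨j, h⟩ := Fin.ext (by simp)
    simp only [c1, Sum.elim_inr, dif_pos h1, if_pos h2, h3]
  have hyy : ∀ j (h : j < N), M (b1 (Sum.inr v) + 2 * j + 1) = y v (eJ.symm ⟨j, h⟩) := by
    intro j h
    rw [add_assoc, Mmid _ _ (by simp only [len1, Sum.elim_inr]; omega)]
    have h1 : (2 * j + 1) / 2 < N := by omega
    have h2 : ¬ (2 * j + 1) % 2 = 0 := by omega
    have h3 : (⟨(2 * j + 1) / 2, h1⟩ : Fin N) = ⟨j, h⟩ := Fin.ext (by simp only; omega)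
    simp only [c1, Sum.elim_inr, dif_pos h1, if_neg h2, h3]
  have hx : ∀ γ : G, M ((eG γ : ℕ) + 1 + b1 (Sum.inl u)) = b2 (row u γ) := by
    intro γ
    have h0 := (eG γ).2
    rw [add_comm, Mmid _ _ (by simp only [len1, Sum.elim_inl]; omega)]
    have h1 : (eG γ : ℕ) + 1 - 1 < U := by omega
    have h3 : (⟨(eG γ : ℕ) + 1 - 1, h1⟩ : Fin U) = eG γ := Fin.ext (by simp)
    simp only [c1, Sum.elim_inl, dif_pos h1, h3, Equiv.symm_apply_apply]
  have htest : ∀ r a, M (a + b2 r) = b2 r ↔ bit r a := by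
    intro r a
    have h0 := b2lo r
    rw [Mhi _ (by omega)]
    constructor
    · intro h
      rcases M2b (a + b2 r) with h1 | ⟨r', a', ha', h1, h2⟩
      · omega
      · rw [h2] at h
        by_cases hb : bit r' a'
        · rw [if_pos hb] at h
          have e : r' = r := b2inj r' r 0 0 (Nat.succ_pos _) (Nat.succ_pos _) (by omega)
          subst e
          have : a' = a := by omega
          rwa [← this]
        · rw [if_neg hb] at h
          omega
    · intro hb
      rw [add_comm, M2a r a (by have := hbit r a hb; omega), if_pos hb]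
  obtain ⟨b, hb1, hb2⟩ := prog_run w ((List.range S).map M) u v N (b1 (Sum.inl u))
    (b1 (Sum.inr v)) (by omega) (by omega) (by rw [hD, hru]) (by rw [hD, hq]) (by rw [hD, hz])
    (by omega) (by
      intro j h
      simp only [hD]
      rw [hg j h, hyy j h, hx]
      have h0 := (eG (g v (eJ.symm ⟨j, h⟩))).2
      have h1 := b2S (row u (g v (eJ.symm ⟨j, h⟩)))
      have h2 := hy v (eJ.symm ⟨j, h⟩)
      refine ⟨by omega, by omega, by omega⟩)
  refine ⟨b, hb1, hb2.trans ⟨?_, ?_⟩⟩
  · rintro ⟨j, h, hh⟩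
    unfold Hit at hh
    simp only [hD] at hh
    rw [hg j h, hyy j h, hx, htest] at hh
    exact ⟨_, hh⟩
  · rintro ⟨j, hh⟩
    refine ⟨eJ j, (eJ j).2, ?_⟩
    unfold Hit
    simp only [hD]
    rw [hg _ (eJ j).2, hyy _ (eJ j).2, hx, htest]
    simpa using hh

end Pool.Agent.Lib.MP_a349b4_lc
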