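import Pool.Agent.Lib.MP_a349b4_lc.Layout
import Pool.Agent.Lib.MP_a349b4_lc.Comb

/-! The data structure for a threshold `2 ^ L`. -/

set_option autoImplicit false

namespace Pool.Agent.Lib.MP_a349b4_lc

open Finset

theorem toList_some {V : Type} (s : Finset V) (i : ℕ) (x : V) (h : s.toList[i]? = some x) :
    x ∈ s := mem_toList.1 (List.mem_of_getElem? h)

theorem toList_idx {V : Type} (s : Finset V) (x : V) (h : x ∈ s) (K : ℕ) (hK : s.card ≤ K) :
    ∃ i : Fin K, s.toList[(i : ℕ)]? = some x := by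
  obtain ⟨i, hi, e⟩ := List.getElem_of_mem (mem_toList.2 h)
  refine ⟨⟨i, ?_⟩, ?_⟩
  · rw [length_toList] at hi; omega
  · simp only
    rw [List.getElem?_eq_getElem hi, e]

/-- Index type of the table rounds. -/
abbrev Rd (k t : ℕ) : Type :=
  Σ c : Fin (t + 1), Fin (k + 1) × Fin (k + 1) × Fin (2 ^ (c : ℕ)) × Fin (2 ^ (t - c))

theorem card_Rd (k t : ℕ) : Fintype.card (Rd k t) = (k + 1) ^ 2 * ((t + 1) * 2 ^ t) := by
  rw [Fintype.card_sigma]
  have : ∀ c : Fin (t + 1),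
      Fintype.card (Fin (k + 1) × Fin (k + 1) × Fin (2 ^ (c : ℕ)) × Fin (2 ^ (t - c))) =
        (k + 1) ^ 2 * 2 ^ t := by
    intro c
    have hc := c.2
    have e : 2 ^ (c : ℕ) * 2 ^ (t - c) = 2 ^ t := by
      rw [← pow_add]; exact congrArg _ (by omega)
    simp only [Fintype.card_prod, Fintype.card_fin, e]
    ring
  rw [sum_congr rfl fun c _ => this c]
  simp
  ring

/-- The abstract scheme: correctness and the sizes of its parts. -/
theorem exists_scheme {n : ℕ} (E : Finset (Fin n × Fin n)) (k L t H : ℕ) (hk : 0 < k)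
    (ht : t = L * (k ^ 2 / 4) / k) (hH : H = n / 2 ^ L + 1) :
    ∃ (len : (Fin n × Fin (k + 2)) ⊕ (Fin n × Fin H) → ℕ)
      (bit : (Fin n × Fin (k + 2)) ⊕ (Fin n × Fin H) → ℕ → Prop)
      (row : Fin n → Fin H ⊕ Rd k t → (Fin n × Fin (k + 2)) ⊕ (Fin n × Fin H))
      (g : Fin n → Unit ⊕ Rd k t → Fin H ⊕ Rd k t)
      (y : Fin n → Unit ⊕ Rd k t → ℕ),
      (∀ r j, bit r j → j < len r) ∧ (∀ v j, y v j ≤ n) ∧
      (∑ r, len (Sum.inl r)) * 2 ^ L ≤ (k + 2) * (4 * E.card + n) ^ 2 ∧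
      ∑ r, len (Sum.inr r) ≤ n * ((k + 1) * 2 ^ (k * L) * 2 ^ L) ∧
      ∀ u v, (∃ j, bit (row u (g v j)) (y v j)) ↔ Reach E k u v := by
  classical
  obtain ⟨a, ao, ai, asum⟩ := exists_class E
  obtain ⟨rk, rinj, rlt⟩ := exists_rank a
  have rn : ∀ z, rk z < n := fun z => by simpa using rlt 0 z (Nat.zero_le _)
  let Rf : Fin n → Fin n → Prop := fun x z => (x, z) ∈ E
  let Rb : Fin n → Fin n → Prop := fun x z => (z, x) ∈ E
  have cf := card_light Rf a (fun x => univ.filter fun z => (x, z) ∈ E)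
    (fun x z h => by simpa using h) ao
  have cb := card_light Rb a (fun x => univ.filter fun z => (z, x) ∈ E)
    (fun x z h => by simpa using h) ai
  let Sp : Fin n → Finset (Fin n) := fun u =>
    (range (k + 1)).biUnion fun l => light Rf a l (k * L) u
  have cSp : ∀ u, (Sp u).card ≤ (k + 1) * 2 ^ (k * L) := by
    intro u
    calc (Sp u).card ≤ ∑ l ∈ range (k + 1), (light Rf a l (k * L) u).card := card_biUnion_le
      _ ≤ ∑ _l ∈ range (k + 1), 2 ^ (k * L) := sum_le_sum fun l _ => cf l _ u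
      _ = (k + 1) * 2 ^ (k * L) := by simp
  have hX : 0 < 2 ^ L := Nat.two_pow_pos L
  have hdiv : ∀ v : Fin n, (v : ℕ) / 2 ^ L < H := fun v =>
    hH ▸ Nat.lt_succ_of_le (Nat.div_le_div_right v.2.le)
  refine ⟨Sum.elim (fun r => (univ.filter fun z => L + 1 - a r.1 ≤ a z).card)
      (fun r => if ∃ v ∈ Sp r.1, (v : ℕ) / 2 ^ L = r.2 then 2 ^ L else 0),
    Sum.elim (fun r j => ∃ z, rk z = j ∧ L + 1 - a r.1 ≤ a z ∧ ∃ l < (r.2 : ℕ), ∃ m : ℕ → Fin n,
        m 0 = r.1 ∧ m l = z ∧ ∀ i < l, (m i, m (i + 1)) ∈ E)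
      (fun r j => ∃ v ∈ Sp r.1, (v : ℕ) / 2 ^ L = r.2 ∧ (v : ℕ) % 2 ^ L = j),
    fun u => Sum.elim (fun h => Sum.inr (u, h))
      (fun d => Sum.inl (((light Rf a d.2.1 d.1 u).toList[(d.2.2.2.1 : ℕ)]?).elim (u, 0)
        (fun x => (x, ⟨k + 1 - d.2.1 - d.2.2.1, by omega⟩)))),
    fun v => Sum.elim (fun _ => Sum.inl ⟨v / 2 ^ L, hdiv v⟩) Sum.inr,
    fun v => Sum.elim (fun _ => (v : ℕ) % 2 ^ L)
      (fun d => ((light Rb a d.2.2.1 (t - d.1) v).toList[(d.2.2.2.2 : ℕ)]?).elim n rk),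
    ?_, ?_, ?_, ?_, ?_⟩
  · rintro (r | r) j h
    · obtain ⟨z, rfl, h1, _⟩ := h
      exact rlt _ z h1
    · obtain ⟨v, hv, h1, rfl⟩ := h
      simp only [Sum.elim_inr]
      rw [if_pos ⟨v, hv, h1⟩]
      exact Nat.mod_lt _ hX
  · rintro v (j | d)
    · exact (Nat.mod_le _ _).trans v.2.le
    · simp only [Sum.elim_inr]
      cases (light Rb a d.2.2.1 (t - d.1) v).toList[(d.2.2.2.2 : ℕ)]? with
      | none => exact le_rfl
      | some z => exact (rn z).le
  · simp only [Sum.elim_inl, Fintype.sum_prod_type, sum_const, card_univ, Fintype.card_fin,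
      smul_eq_mul]
    rw [← mul_sum, mul_assoc]
    exact Nat.mul_le_mul_left _ ((card_pairs a L).trans (Nat.pow_le_pow_left asum 2))
  · simp only [Sum.elim_inr, Fintype.sum_prod_type]
    calc ∑ u : Fin n, ∑ h : Fin H,
          (if ∃ v ∈ Sp u, (v : ℕ) / 2 ^ L = h then 2 ^ L else 0)
        ≤ ∑ _u : Fin n, (k + 1) * 2 ^ (k * L) * 2 ^ L := by
          refine sum_le_sum fun u _ => ?_
          rw [← sum_filter, sum_const, smul_eq_mul]
          refine Nat.mul_le_mul_right _ (le_trans ?_ (cSp u))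
          refine le_trans (card_le_card ?_)
            (card_image_le (s := Sp u)
              (f := fun v : Fin n => (⟨v / 2 ^ L, hdiv v⟩ : Fin H)))
          intro h hh
          obtain ⟨v, hv, e⟩ := (mem_filter.1 hh).2
          exact mem_image.2 ⟨v, hv, Fin.ext e⟩
      _ = n * ((k + 1) * 2 ^ (k * L) * 2 ^ L) := by simp
  intro u v
  constructor
  · rintro ⟨j | d, h⟩
    · obtain ⟨v', hv', h1, h2⟩ := h
      simp only [Sum.elim_inl] at h1 h2
      have e : v' = v := by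
        apply Fin.ext
        rw [← Nat.div_add_mod v' (2 ^ L), ← Nat.div_add_mod v (2 ^ L), h1, h2]
      subst e
      obtain ⟨l, hl, hm⟩ := mem_biUnion.1 hv'
      obtain ⟨p, p0, p1, p2, _⟩ := mem_light.1 hm
      exact ⟨l, by have := mem_range.1 hl; omega, p, p0, p1, p2⟩
    · simp only [Sum.elim_inr, Sum.elim_inl] at h
      obtain ⟨z, hz, _, l, hl, m, m0, m1, m2⟩ := h
      cases hx : (light Rf a d.2.1 d.1 u).toList[(d.2.2.2.1 : ℕ)]? with
      | none => rw [hx] at hl; simp at hl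
      | some x =>
        rw [hx] at hl m0
        simp only [Option.elim_some] at hl m0
        cases hz' : (light Rb a d.2.2.1 (t - d.1) v).toList[(d.2.2.2.2 : ℕ)]? with
        | none =>
          rw [hz'] at hz
          simp only [Option.elim_none] at hz
          have := rn z
          omega
        | some z' =>
          rw [hz'] at hz
          simp only [Option.elim_some] at hz
          have e : z = z' := rinj hz
          subst e
          obtain ⟨p, p0, p1, p2, _⟩ := mem_light.1 (toList_some _ _ _ hx)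
          obtain ⟨q, q0, q1, q2, _⟩ := mem_light.1 (toList_some _ _ _ hz')
          rw [← p0, ← q0]
          exact glue E p m q p2 m2 q2 (by rw [m0, p1]) (by rw [m1, q1]) (by omega)
  · rintro ⟨l, hl, p, p0, p1, p2⟩
    by_cases hs : ∀ i < l, a (p i) ≤ L
    · refine ⟨Sum.inl (), v, ?_, rfl, rfl⟩
      refine mem_biUnion.2 ⟨l, mem_range.2 (by omega), mem_light.2 ⟨p, p0, p1, p2, ?_⟩⟩
      calc ∑ i ∈ range l, a (p i) ≤ ∑ _i ∈ range l, L :=
            sum_le_sum fun i hi => hs i (mem_range.1 hi)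
        _ = l * L := by simp
        _ ≤ k * L := Nat.mul_le_mul_right _ hl
    · push Not at hs
      obtain ⟨i, hi, hbig⟩ := hs
      obtain ⟨s, s', h1, h2, h3⟩ := cheap_pair (fun r => a (p r)) k l L i hk hl hi.le hbig
      rw [← ht] at h2
      set c := ∑ r ∈ range s, a (p r) with hc
      have m1 : p s ∈ light Rf a s c u :=
        mem_light.2 ⟨p, p0, rfl, fun r hr => p2 r (by omega), le_rfl⟩
      have m2 : p (l - s') ∈ light Rb a s' (t - c) v := by
        refine mem_light.2 ⟨fun r => p (l - r), p1, rfl, fun r hr => ?_,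
          Nat.le_sub_of_add_le (by rw [add_comm]; exact h2)⟩
        have e : l - r = l - (r + 1) + 1 := by omega
        show (p (l - (r + 1)), p (l - r)) ∈ E
        rw [e]
        exact p2 _ (by omega)
      obtain ⟨i1, hi1⟩ := toList_idx _ _ m1 (2 ^ c) (cf _ _ _)
      obtain ⟨i2, hi2⟩ := toList_idx _ _ m2 (2 ^ (t - c)) (cb _ _ _)
      refine ⟨Sum.inr ⟨⟨c, by omega⟩, ⟨s, by omega⟩, ⟨s', by omega⟩, i1, i2⟩, ?_⟩
      simp only [Sum.elim_inr, Sum.elim_inl, hi1, hi2, Option.elim_some]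
      refine ⟨p (l - s'), rfl, by omega, l - s - s', by omega, fun r => p (s + r), rfl,
        congrArg p (by omega), fun r hr => p2 (s + r) (by omega)⟩

theorem core (k c : ℕ) (hk : 0 < k) : ∃ C : ℕ, 2 ≤ C ∧
    ∀ (n L w : ℕ) (E : Finset (Fin n × Fin n)), E.card ≤ c * n → 2 ^ (L * (k + 2)) ≤ n →
      C * n ^ 2 ≤ 2 ^ w → ∃ D : List ℕ, D.length * 2 ^ L ≤ C * n ^ 2 ∧
        Answers prog w k E D (C * ((L * (k ^ 2 / 4) / k + 1) * 2 ^ (L * (k ^ 2 / 4) / k))) := by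
  refine ⟨13 + 31 * (k + 1) ^ 2 + (k + 2) * ((4 * c + 1) ^ 2 + 2), by omega, ?_⟩
  intro n L w E hE hn hw
  obtain ⟨t, ht⟩ : ∃ t, t = L * (k ^ 2 / 4) / k := ⟨_, rfl⟩
  obtain ⟨H, hH0⟩ : ∃ H, H = n / 2 ^ L + 1 := ⟨_, rfl⟩
  obtain ⟨len, bit, row, g, y, hbit, hy, s1, s2, hcor⟩ := exists_scheme E k L t H hk ht hH0
  rw [← ht]
  set X := 2 ^ L with hX
  set K := (t + 1) * 2 ^ t with hK
  have hX1 : 1 ≤ X := Nat.one_le_two_pow
  have hn1 : 1 ≤ n := Nat.one_le_two_pow.trans hn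
  have hXn : X ≤ n := (Nat.pow_le_pow_right (by norm_num) (by nlinarith)).trans hn
  have hK1 : 1 ≤ K := Nat.mul_pos (Nat.succ_pos t) (Nat.two_pow_pos t)
  have hH : H * X ≤ 2 * n := by
    have := Nat.div_mul_le_self n X
    rw [hH0]
    nlinarith
  have ht2 : 2 * t ≤ L * k := by
    have h1 : t * k ≤ L * (k ^ 2 / 4) := ht ▸ Nat.div_mul_le_self _ _
    have h2 : k ^ 2 / 4 * 4 ≤ k ^ 2 := Nat.div_mul_le_self _ _
    have h3 : 2 * t * k ≤ L * k * k := by nlinarith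
    exact Nat.le_of_mul_le_mul_right h3 hk
  have hKX : K * X ≤ n := by
    have h1 : t + 1 ≤ 2 ^ t := Nat.lt_two_pow_self
    calc K * X ≤ 2 ^ t * 2 ^ t * 2 ^ L := Nat.mul_le_mul_right _ (Nat.mul_le_mul_right _ h1)
      _ = 2 ^ (2 * t + L) := by ring
      _ ≤ 2 ^ (L * (k + 2)) := Nat.pow_le_pow_right (by norm_num) (by nlinarith)
      _ ≤ n := hn
  have hSp : 2 ^ (k * L) * X * X ≤ n := by
    calc 2 ^ (k * L) * X * X = 2 ^ (L * (k + 2)) := by rw [hX]; ring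
      _ ≤ n := hn
  have cG : Fintype.card (Fin H ⊕ Rd k t) = H + (k + 1) ^ 2 * K := by
    rw [Fintype.card_sum, card_Rd, Fintype.card_fin]
  have cJ : Fintype.card (Unit ⊕ Rd k t) = 1 + (k + 1) ^ 2 * K := by
    rw [Fintype.card_sum, card_Rd, Fintype.card_unit]
  have cR : ∑ r, (len r + 1) = ∑ r, len (Sum.inl r) + ∑ r, len (Sum.inr r) +
      (n * (k + 2) + n * H) := by
    rw [sum_add_distrib, Fintype.sum_sum_type]
    simp
  set S := 2 * n + (n * (Fintype.card (Fin H ⊕ Rd k t) + 1) +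
    n * (2 * Fintype.card (Unit ⊕ Rd k t) + 1)) + ∑ r, (len r + 1) with hS
  have hSX : S * X ≤ (11 + 3 * (k + 1) ^ 2 + (k + 2) * ((4 * c + 1) ^ 2 + 2)) * n ^ 2 := by
    rw [hS, cG, cJ, cR]
    set A := ∑ r, len (Sum.inl r)
    set B := ∑ r, len (Sum.inr r)
    set Q := (k + 1) ^ 2
    have a1 : A * X ≤ (k + 2) * ((4 * c + 1) ^ 2 * n ^ 2) := by
      refine s1.trans (Nat.mul_le_mul_left _ ?_)
      rw [← mul_pow]
      exact Nat.pow_le_pow_left (by nlinarith) 2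
    have a2 : B * X ≤ (k + 2) * n ^ 2 := by
      calc B * X ≤ n * ((k + 1) * 2 ^ (k * L) * X) * X := Nat.mul_le_mul_right _ s2
        _ = n * (k + 1) * (2 ^ (k * L) * X * X) := by ring
        _ ≤ n * (k + 1) * n := Nat.mul_le_mul_left _ hSp
        _ ≤ (k + 2) * n ^ 2 := by nlinarith
    have a3 : n * X ≤ n ^ 2 := by rw [sq]; exact Nat.mul_le_mul_left _ hXn
    have a4 : n * (H * X) ≤ 2 * n ^ 2 := by
      calc n * (H * X) ≤ n * (2 * n) := Nat.mul_le_mul_left _ hH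
        _ = 2 * n ^ 2 := by ring
    have a5 : Q * (n * (K * X)) ≤ Q * n ^ 2 := by
      rw [sq]; exact Nat.mul_le_mul_left _ (Nat.mul_le_mul_left _ hKX)
    have a6 : (k + 2) * (n * X) ≤ (k + 2) * n ^ 2 := Nat.mul_le_mul_left _ a3
    calc (2 * n + (n * (H + Q * K + 1) + n * (2 * (1 + Q * K) + 1)) +
          (A + B + (n * (k + 2) + n * H))) * X
        = 6 * (n * X) + 2 * (n * (H * X)) + 3 * (Q * (n * (K * X))) + A * X + B * X +
          (k + 2) * (n * X) := by ring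
      _ ≤ 6 * n ^ 2 + 2 * (2 * n ^ 2) + 3 * (Q * n ^ 2) + (k + 2) * ((4 * c + 1) ^ 2 * n ^ 2) +
          (k + 2) * n ^ 2 + (k + 2) * n ^ 2 := by omega
      _ ≤ (11 + 3 * Q + (k + 2) * ((4 * c + 1) ^ 2 + 2)) * n ^ 2 := by nlinarith
  have hSw : S + n < 2 ^ w := by
    have h1 : S ≤ S * X := Nat.le_mul_of_pos_right _ hX1
    have h2 : n + 1 ≤ 2 * n ^ 2 := by nlinarith
    have h3 : (11 + 3 * (k + 1) ^ 2 + (k + 2) * ((4 * c + 1) ^ 2 + 2)) * n ^ 2 + 2 * n ^ 2 ≤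
        (13 + 31 * (k + 1) ^ 2 + (k + 2) * ((4 * c + 1) ^ 2 + 2)) * n ^ 2 := by
      rw [← add_mul]
      exact Nat.mul_le_mul_right _ (by omega)
    omega
  obtain ⟨D, d1, d2, d3⟩ := scheme len bit hbit row g y hy w S hS hSw
  refine ⟨D, ?_, d2, fun u v => ?_⟩
  · rw [d1]
    exact hSX.trans (Nat.mul_le_mul_right _ (by omega))
  · obtain ⟨b, b1, b2⟩ := d3 u v
    refine ⟨b, run_mono _ _ _ b1 ?_, b2.trans (hcor u v)⟩
    rw [cJ]
    have h1 : 1 ≤ (k + 1) ^ 2 * K := Nat.mul_pos (Nat.pow_pos (Nat.succ_pos k)) hK1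
    calc 11 * (1 + (k + 1) ^ 2 * K) + 9 ≤ 31 * (k + 1) ^ 2 * K := by rw [mul_assoc]; omega
      _ ≤ _ := Nat.mul_le_mul_right _ (by omega)

end Pool.Agent.Lib.MP_a349b4_lc
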