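import Pool.Agent.Lib.MP_a349b4_lc.Defs

/-! The query program: one loop over a zero-terminated list of pairs. -/

set_option autoImplicit false

namespace Pool.Agent.Lib.MP_a349b4_lc

open Function

/-- The query program. -/
def prog : List Instr :=
  [Instr.const 2 1, Instr.add 0 0 0, Instr.load 0 0, Instr.add 1 1 1, Instr.add 1 1 2,
   Instr.load 1 1,
   Instr.load 4 1, Instr.jeq 4 3 17, Instr.add 4 4 0, Instr.load 4 4, Instr.add 1 1 2,
   Instr.load 5 1, Instr.add 5 5 4, Instr.load 5 5, Instr.add 1 1 2, Instr.jeq 5 4 18,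
   Instr.jeq 3 3 6, Instr.halt false, Instr.halt true]

theorem run_succ (P : List Instr) (w : ℕ) (D : List ℕ) :
    ∀ (t pc : ℕ) (r : ℕ → ℕ) (b : Bool), run P w D t pc r = some b →
      run P w D (t + 1) pc r = some b := by
  intro t
  induction t with
  | zero => intro pc r b h; simp [run] at h
  | succ t ih =>
    intro pc r b h
    rw [run] at h ⊢
    cases hp : P[pc]? with
    | none => rw [hp] at h; simp at h
    | some ins =>
      rw [hp] at h
      cases ins with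
      | const i c => exact ih _ _ _ h
      | add i j l => exact ih _ _ _ h
      | load i j => exact ih _ _ _ h
      | jeq i j p =>
        by_cases e : r i = r j
        · simp only [e, if_true] at h ⊢; exact ih _ _ _ h
        · simp only [e, if_false] at h ⊢; exact ih _ _ _ h
      | halt b' => exact h

theorem run_mono (P : List Instr) (w : ℕ) (D : List ℕ) {t t' pc : ℕ} {r : ℕ → ℕ} {b : Bool}
    (h : run P w D t pc r = some b) (htt : t ≤ t') : run P w D t' pc r = some b := by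
  induction htt with
  | refl => exact h
  | step _ ih => exact run_succ P w D _ _ _ _ ih

/-- The test made in the round that reads the list at address `q`. -/
def Hit (D : List ℕ) (ru q : ℕ) : Prop :=
  D.getD (D.getD (q + 1) 0 + D.getD (D.getD q 0 + ru) 0) 0 = D.getD (D.getD q 0 + ru) 0

theorem loop_end (w : ℕ) (D : List ℕ) (t : ℕ) (r : ℕ → ℕ) (h3 : r 3 = 0)
    (h : D.getD (r 1) 0 = 0) : run prog w D (t + 3) 6 r = some false := by
  simp [run, prog, update, h3, -List.getD_eq_getElem?_getD, h]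

theorem loop_hit (w : ℕ) (D : List ℕ) (t : ℕ) (r : ℕ → ℕ) (h2 : r 2 = 1) (h3 : r 3 = 0)
    (h : D.getD (r 1) 0 ≠ 0) (b1 : D.getD (r 1) 0 + r 0 < 2 ^ w) (b2 : r 1 + 2 < 2 ^ w)
    (b3 : D.getD (r 1 + 1) 0 + D.getD (D.getD (r 1) 0 + r 0) 0 < 2 ^ w)
    (hh : Hit D (r 0) (r 1)) : run prog w D (t + 11) 6 r = some true := by
  have b2' : r 1 + 1 < 2 ^ w := by omega
  unfold Hit at hh
  simp [run, prog, update, h2, h3, -List.getD_eq_getElem?_getD, h, Nat.mod_eq_of_lt b1,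
    Nat.mod_eq_of_lt b2', Nat.mod_eq_of_lt b3, hh]

theorem step_const {P : List Instr} {pc i c : ℕ} (h : P[pc]? = some (Instr.const i c))
    (w : ℕ) (D : List ℕ) (t : ℕ) (r : ℕ → ℕ) :
    run P w D (t + 1) pc r = run P w D t (pc + 1) (update r i (c % 2 ^ w)) := by
  rw [run, h]

theorem step_add {P : List Instr} {pc i j l : ℕ} (h : P[pc]? = some (Instr.add i j l))
    (w : ℕ) (D : List ℕ) (t : ℕ) (r : ℕ → ℕ) :
    run P w D (t + 1) pc r = run P w D t (pc + 1) (update r i ((r j + r l) % 2 ^ w)) := by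
  rw [run, h]

theorem step_load {P : List Instr} {pc i j : ℕ} (h : P[pc]? = some (Instr.load i j))
    (w : ℕ) (D : List ℕ) (t : ℕ) (r : ℕ → ℕ) :
    run P w D (t + 1) pc r = run P w D t (pc + 1) (update r i (D.getD (r j) 0)) := by
  rw [run, h]

theorem step_eq {P : List Instr} {pc i j p : ℕ} (h : P[pc]? = some (Instr.jeq i j p))
    (w : ℕ) (D : List ℕ) (t : ℕ) (r : ℕ → ℕ) (e : r i = r j) :
    run P w D (t + 1) pc r = run P w D t p r := by
  rw [run, h]; simp only [e, if_true]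

theorem step_ne {P : List Instr} {pc i j p : ℕ} (h : P[pc]? = some (Instr.jeq i j p))
    (w : ℕ) (D : List ℕ) (t : ℕ) (r : ℕ → ℕ) (e : r i ≠ r j) :
    run P w D (t + 1) pc r = run P w D t (pc + 1) r := by
  rw [run, h]; simp only [e, if_false]

theorem loop_miss (w : ℕ) (D : List ℕ) (r : ℕ → ℕ) (h2 : r 2 = 1) (h3 : r 3 = 0)
    (h : D.getD (r 1) 0 ≠ 0) (b1 : D.getD (r 1) 0 + r 0 < 2 ^ w) (b2 : r 1 + 2 < 2 ^ w)
    (b3 : D.getD (r 1 + 1) 0 + D.getD (D.getD (r 1) 0 + r 0) 0 < 2 ^ w)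
    (hh : ¬ Hit D (r 0) (r 1)) : ∃ r' : ℕ → ℕ, r' 0 = r 0 ∧ r' 1 = r 1 + 2 ∧ r' 2 = 1 ∧ r' 3 = 0 ∧
      ∀ t, run prog w D (t + 11) 6 r = run prog w D t 6 r' := by
  have b2' : r 1 + 1 < 2 ^ w := by omega
  have b2'' : r 1 + 1 + 1 < 2 ^ w := by omega
  unfold Hit at hh
  refine ⟨update (update (update r 4 (D.getD (D.getD (r 1) 0 + r 0) 0)) 5
    (D.getD (D.getD (r 1 + 1) 0 + D.getD (D.getD (r 1) 0 + r 0) 0) 0)) 1 (r 1 + 2),
    by simp, by simp, by simp [h2], by simp [h3], ?_⟩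
  intro t
  rw [step_load (pc := 6) (i := 4) (j := 1) rfl,
    step_ne (pc := 7) (i := 4) (j := 3) (p := 17) rfl _ _ _ _
      (by simpa [h3, -List.getD_eq_getElem?_getD] using h),
    step_add (pc := 8) (i := 4) (j := 4) (l := 0) rfl,
    step_load (pc := 9) (i := 4) (j := 4) rfl,
    step_add (pc := 10) (i := 1) (j := 1) (l := 2) rfl,
    step_load (pc := 11) (i := 5) (j := 1) rfl,
    step_add (pc := 12) (i := 5) (j := 5) (l := 4) rfl,
    step_load (pc := 13) (i := 5) (j := 5) rfl,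
    step_add (pc := 14) (i := 1) (j := 1) (l := 2) rfl,
    step_ne (pc := 15) (i := 5) (j := 4) (p := 18) rfl _ _ _ _
      (by simpa [h2, -List.getD_eq_getElem?_getD, Nat.mod_eq_of_lt b1,
        Nat.mod_eq_of_lt b2', Nat.mod_eq_of_lt b3] using hh),
    step_eq (pc := 16) (i := 3) (j := 3) (p := 6) rfl _ _ _ _ rfl]
  refine congrArg _ ?_
  funext i
  by_cases e1 : i = 1
  · subst e1
    simp [h2, -List.getD_eq_getElem?_getD, Nat.mod_eq_of_lt b2', Nat.mod_eq_of_lt b2'']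
  by_cases e5 : i = 5
  · subst e5
    simp [h2, -List.getD_eq_getElem?_getD, Nat.mod_eq_of_lt b1,
        Nat.mod_eq_of_lt b2', Nat.mod_eq_of_lt b3]
  by_cases e4 : i = 4
  · subst e4
    simp [-List.getD_eq_getElem?_getD, Nat.mod_eq_of_lt b1]
  simp [update_of_ne e1, update_of_ne e4, update_of_ne e5]

/-- The loop decides whether one of the `N` rounds hits. -/
theorem loop_run (w : ℕ) (D : List ℕ) (ru : ℕ) :
    ∀ (N q : ℕ) (r : ℕ → ℕ), r 0 = ru → r 1 = q → r 2 = 1 → r 3 = 0 →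
      D.getD (q + 2 * N) 0 = 0 → q + 2 * N < 2 ^ w →
      (∀ j < N, D.getD (q + 2 * j) 0 ≠ 0 ∧ D.getD (q + 2 * j) 0 + ru < 2 ^ w ∧
        D.getD (q + 2 * j + 1) 0 + D.getD (D.getD (q + 2 * j) 0 + ru) 0 < 2 ^ w) →
      ∃ b : Bool, run prog w D (11 * N + 3) 6 r = some b ∧
        (b = true ↔ ∃ j < N, Hit D ru (q + 2 * j)) := by
  intro N
  induction N with
  | zero =>
    intro q r h0 h1 h2 h3 hz _ _
    refine ⟨false, ?_, by simp⟩
    have := loop_end w D 0 r h3 (by rw [h1]; simpa using hz)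
    simpa using this
  | succ N ih =>
    intro q r h0 h1 h2 h3 hz hb hj
    obtain ⟨a1, a2, a3⟩ := hj 0 (Nat.succ_pos N)
    simp only [mul_zero, add_zero] at a1 a2 a3
    subst h0 h1
    have e : 11 * (N + 1) + 3 = (11 * N + 3) + 11 := by ring
    by_cases hh : Hit D (r 0) (r 1)
    · refine ⟨true, ?_, ?_⟩
      · rw [e]; exact loop_hit w D _ r h2 h3 a1 a2 (by omega) a3 hh
      · exact ⟨fun _ => ⟨0, Nat.succ_pos N, by simpa using hh⟩, fun _ => rfl⟩
    · obtain ⟨r', s0, s1, s2, s3, hr⟩ := loop_miss w D r h2 h3 a1 a2 (by omega) a3 hh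
      have e2 : ∀ j, r 1 + 2 + 2 * j = r 1 + 2 * (j + 1) := fun j => by ring
      obtain ⟨b, hb1, hb2⟩ := ih (r 1 + 2) r' s0 s1 s2 s3 (by rw [e2]; exact hz)
        (by rw [e2]; exact hb) (fun j hjN => by rw [e2]; exact hj (j + 1) (by omega))
      refine ⟨b, by rw [e, hr]; exact hb1, hb2.trans ⟨?_, ?_⟩⟩
      · rintro ⟨j, hjN, hj'⟩
        exact ⟨j + 1, by omega, by rw [← e2]; exact hj'⟩
      · rintro ⟨j, hjN, hj'⟩
        cases j with
        | zero => exact absurd (by simpa using hj') hh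
        | succ j => exact ⟨j, by omega, by rw [e2]; exact hj'⟩

/-- The whole program. -/
theorem prog_run (w : ℕ) (D : List ℕ) (u v N ru q : ℕ) (hu : 2 * u < 2 ^ w)
    (hv : 2 * v + 1 < 2 ^ w) (hru : D.getD (2 * u) 0 = ru) (hq : D.getD (2 * v + 1) 0 = q)
    (hz : D.getD (q + 2 * N) 0 = 0) (hb : q + 2 * N < 2 ^ w)
    (hj : ∀ j < N, D.getD (q + 2 * j) 0 ≠ 0 ∧ D.getD (q + 2 * j) 0 + ru < 2 ^ w ∧
        D.getD (q + 2 * j + 1) 0 + D.getD (D.getD (q + 2 * j) 0 + ru) 0 < 2 ^ w) :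
    ∃ b : Bool, run prog w D (11 * N + 9) 0
        (fun i => if i = 0 then u else if i = 1 then v else 0) = some b ∧
      (b = true ↔ ∃ j < N, Hit D ru (q + 2 * j)) := by
  have e : 11 * N + 9 = 11 * N + 3 + 1 + 1 + 1 + 1 + 1 + 1 := by ring
  have m1 : 1 % 2 ^ w = 1 := Nat.mod_eq_of_lt (by omega)
  have m2 : (u + u) % 2 ^ w = 2 * u := by rw [← two_mul]; exact Nat.mod_eq_of_lt hu
  have m3 : (v + v) % 2 ^ w = 2 * v := by rw [← two_mul]; exact Nat.mod_eq_of_lt (by omega)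
  have m4 : (2 * v + 1) % 2 ^ w = 2 * v + 1 := Nat.mod_eq_of_lt hv
  rw [e, step_const (pc := 0) (i := 2) (c := 1) rfl,
    step_add (pc := 1) (i := 0) (j := 0) (l := 0) rfl,
    step_load (pc := 2) (i := 0) (j := 0) rfl,
    step_add (pc := 3) (i := 1) (j := 1) (l := 1) rfl,
    step_add (pc := 4) (i := 1) (j := 1) (l := 2) rfl,
    step_load (pc := 5) (i := 1) (j := 1) rfl]
  refine loop_run w D ru N q _ ?_ ?_ ?_ ?_ hz hb hj
  · simp [-List.getD_eq_getElem?_getD, m2, hru]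
  · simp [-List.getD_eq_getElem?_getD, m1, m3, m4, hq]
  · simp [m1]
  · simp

end Pool.Agent.Lib.MP_a349b4_lc
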